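import Pool.Agent.TH492.Final

set_option autoImplicit false

/-!
Strong colouring numbers versus shallow bramble numbers on classes with polynomial expansion.
-/

namespace Pool.Agent.Results.MP_9d6589_co.ScolBramble

open Finset

/-- The vertex set `B` has radius at most `r` in the subgraph induced by it (so it is nonempty
and connected): some `x ∈ B` reaches every `y ∈ B` by a walk of length at most `r` inside `B`. -/
def RadiusLE {n : ℕ} (G : SimpleGraph (Fin n)) (r : ℕ) (B : Set (Fin n)) : Prop :=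
  ∃ x ∈ B, ∀ y ∈ B, ∃ p : G.Walk x y, p.length ≤ r ∧ ∀ w ∈ p.support, w ∈ B

/-- `H` is a depth-`r` minor of `G`. -/
def IsDepthMinor {m n : ℕ} (r : ℕ) (H : SimpleGraph (Fin m)) (G : SimpleGraph (Fin n)) : Prop :=
  ∃ B : Fin m → Set (Fin n), (∀ i j, i ≠ j → Disjoint (B i) (B j)) ∧
    (∀ i, RadiusLE G r (B i)) ∧
    (∀ i j, H.Adj i j → ∃ a ∈ B i, ∃ b ∈ B j, G.Adj a b)

/-- `∇_r(G)`, the largest edge density `|E(H)| / |V(H)|` of a depth-`r` minor of `G`
(with at least one vertex). -/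
noncomputable def nabla {n : ℕ} (r : ℕ) (G : SimpleGraph (Fin n)) : ℝ :=
  sSup {x : ℝ | ∃ (m : ℕ) (H : SimpleGraph (Fin m)), 0 < m ∧ IsDepthMinor r H G ∧
    x = (H.edgeSet.ncard : ℝ) / (m : ℝ)}

/-- the class `C` has polynomial expansion. -/
def PolynomialExpansion (C : (n : ℕ) → SimpleGraph (Fin n) → Prop) : Prop :=
  ∃ p : Polynomial ℝ, ∀ (r n : ℕ) (G : SimpleGraph (Fin n)), C n G → nabla r G ≤ p.eval (r : ℝ)

/-- the set of vertices strongly `r`-reachable from `v` with respect to the linear order `π`. -/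
def SReach {n : ℕ} (G : SimpleGraph (Fin n)) (r : ℕ) (π : Equiv.Perm (Fin n)) (v : Fin n) :
    Set (Fin n) :=
  {u | π u ≤ π v ∧ ∃ p : G.Walk v u, p.IsPath ∧ p.length ≤ r ∧
    ∀ w ∈ p.support, w ≠ v → w ≠ u → π v < π w}

/-- `scol_r(G)`: the least `k` such that some linear order has all its sets `SReach` of size at
most `k`. -/
noncomputable def scol {n : ℕ} (r : ℕ) (G : SimpleGraph (Fin n)) : ℕ :=
  sInf {k : ℕ | ∃ π : Equiv.Perm (Fin n), ∀ v, (SReach G r π v).ncard ≤ k}

/-- a depth-`r` bramble of `G`. -/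
def IsBramble {n : ℕ} (G : SimpleGraph (Fin n)) (r : ℕ) (F : Set (Set (Fin n))) : Prop :=
  (∀ B ∈ F, RadiusLE G r B) ∧
    ∀ B ∈ F, ∀ B' ∈ F, (B ∩ B').Nonempty ∨ ∃ a ∈ B, ∃ b ∈ B', G.Adj a b

/-- the order of a family of vertex sets: the least size of a vertex set meeting every member. -/
noncomputable def order {n : ℕ} (F : Set (Set (Fin n))) : ℕ :=
  sInf {k : ℕ | ∃ X : Finset (Fin n), X.card = k ∧ ∀ B ∈ F, ∃ x ∈ X, x ∈ B}

/-- `bn_r(G)`: the largest order of a depth-`r` bramble of `G`. -/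
noncomputable def bn {n : ℕ} (r : ℕ) (G : SimpleGraph (Fin n)) : ℕ :=
  sSup {k : ℕ | ∃ F : Set (Set (Fin n)), IsBramble G r F ∧ k = order F}

theorem minor_le {m n r : ℕ} {H : SimpleGraph (Fin m)} {G : SimpleGraph (Fin n)}
    (h : IsDepthMinor r H G) : m ≤ n := by
  obtain ⟨B, hB, hr, _⟩ := h
  choose x hx _ using hr
  have hinj : Function.Injective x := by
    intro i j hij
    by_contra hne
    exact Set.disjoint_left.1 (hB i j hne) (hx i) (hij ▸ hx j)
  simpa using Fintype.card_le_of_injective x hinj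

theorem edges_le {m : ℕ} (H : SimpleGraph (Fin m)) : H.edgeSet.ncard ≤ m * m := by
  classical
  have h1 : H.edgeSet ⊆ Set.range (fun p : Fin m × Fin m => s(p.1, p.2)) := by
    intro e _
    induction e using Sym2.ind with
    | _ a b => exact ⟨(a, b), rfl⟩
  have h2 : (Set.range (fun p : Fin m × Fin m => s(p.1, p.2))).ncard ≤ m * m := by
    rw [← Set.image_univ]
    refine (Set.ncard_image_le (Set.toFinite _)).trans ?_
    rw [Set.ncard_univ]
    simp
  exact (Set.ncard_le_ncard h1 (Set.toFinite _)).trans h2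

theorem bdd_nabla {n : ℕ} (r : ℕ) (G : SimpleGraph (Fin n)) :
    BddAbove {x : ℝ | ∃ (m : ℕ) (H : SimpleGraph (Fin m)), 0 < m ∧ IsDepthMinor r H G ∧
      x = (H.edgeSet.ncard : ℝ) / (m : ℝ)} := by
  refine ⟨n, ?_⟩
  rintro x ⟨m, H, hm, hH, rfl⟩
  have hm' : (0 : ℝ) < m := by exact_mod_cast hm
  rw [div_le_iff₀ hm']
  have h1 : m ≤ n := minor_le hH
  have h2 := edges_le H
  have h3 : H.edgeSet.ncard ≤ n * m := h2.trans (Nat.mul_le_mul_right _ h1)
  exact_mod_cast h3

theorem le_nabla {m n r : ℕ} {H : SimpleGraph (Fin m)} {G : SimpleGraph (Fin n)} (hm : 0 < m)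
    (h : IsDepthMinor r H G) : (H.edgeSet.ncard : ℝ) / (m : ℝ) ≤ nabla r G :=
  le_csSup (bdd_nabla r G) ⟨m, H, hm, h, rfl⟩

theorem poly_bound (p : Polynomial ℝ) : ∃ c k : ℕ, ∀ r : ℕ, p.eval (r : ℝ) ≤ c * (r + 1) ^ k := by
  obtain ⟨c, hc⟩ := exists_nat_ge (∑ i ∈ Finset.range (p.natDegree + 1), |p.coeff i|)
  refine ⟨c, p.natDegree, fun r => ?_⟩
  rw [Polynomial.eval_eq_sum_range]
  calc _ ≤ ∑ i ∈ Finset.range (p.natDegree + 1), |p.coeff i| * ((r : ℝ) + 1) ^ p.natDegree := by
        apply Finset.sum_le_sum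
        intro i hi
        rw [Finset.mem_range] at hi
        have h1 : (r : ℝ) ^ i ≤ ((r : ℝ) + 1) ^ p.natDegree :=
          calc (r : ℝ) ^ i ≤ ((r : ℝ) + 1) ^ i :=
                pow_le_pow_left₀ (Nat.cast_nonneg r) (by linarith) i
            _ ≤ _ := pow_le_pow_right₀ (by have := Nat.cast_nonneg (α := ℝ) r; linarith) (by omega)
        calc p.coeff i * (r : ℝ) ^ i ≤ |p.coeff i| * (r : ℝ) ^ i :=
              mul_le_mul_of_nonneg_right (le_abs_self _) (by positivity)
          _ ≤ _ := mul_le_mul_of_nonneg_left h1 (abs_nonneg _)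
    _ = (∑ i ∈ Finset.range (p.natDegree + 1), |p.coeff i|) * ((r : ℝ) + 1) ^ p.natDegree := by
        rw [Finset.sum_mul]
    _ ≤ _ := mul_le_mul_of_nonneg_right hc (by positivity)

theorem scol_le {n : ℕ} {r : ℕ} {G : SimpleGraph (Fin n)} {k : ℕ} (π : Equiv.Perm (Fin n))
    (h : ∀ v, (SReach G r π v).ncard ≤ k) : scol r G ≤ k :=
  Nat.sInf_le ⟨π, h⟩

/-- For every class with polynomial expansion there is a polynomial `f` in two variables with
`scol_r(G) ≤ f(r, bn_r(G))` for every `r ≥ 0` and every graph `G` of the class. -/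
theorem result : ∀ C : (n : ℕ) → SimpleGraph (Fin n) → Prop, PolynomialExpansion C →
    ∃ f : MvPolynomial (Fin 2) ℝ, ∀ (r n : ℕ) (G : SimpleGraph (Fin n)), C n G →
      (scol r G : ℝ) ≤ MvPolynomial.eval ![(r : ℝ), (bn r G : ℝ)] f := by
  intro C ⟨p, hp⟩
  obtain ⟨c0, k0, hck⟩ := poly_bound p
  obtain ⟨d, hd, c, hc⟩ := Pool.Agent.TH492.main C ⟨c0, k0, by
    intro r n G hG m H B h1 h2 h3
    rcases Nat.eq_zero_or_pos m with hm | hm
    · subst hm
      have := edges_le H
      omega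
    · have hm' : (0 : ℝ) < m := by exact_mod_cast hm
      have h4 := (le_nabla hm ⟨B, h1, h2, h3⟩).trans ((hp r n G hG).trans (hck r))
      rw [div_le_iff₀ hm'] at h4
      exact_mod_cast h4⟩
  refine ⟨MvPolynomial.C (c : ℝ) * MvPolynomial.X 0 ^ d + 1, ?_⟩
  intro r n G hG
  simp only [map_add, map_mul, MvPolynomial.eval_C, map_pow, MvPolynomial.eval_X,
    Matrix.cons_val_zero, map_one]
  rcases Nat.eq_zero_or_pos r with hr | hr
  · subst hr
    have h1 : scol 0 G ≤ 1 := by
      apply scol_le 1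
      intro v
      have : SReach G 0 1 v ⊆ {v} := by
        rintro u ⟨_, q, _, hq, _⟩
        have h0 : q.length = 0 := by omega
        exact (SimpleGraph.Walk.eq_of_length_eq_zero h0).symm
      exact (Set.ncard_le_ncard this (Set.toFinite _)).trans (by simp)
    have h2 : (scol 0 G : ℝ) ≤ 1 := by exact_mod_cast h1
    have h3 : (0 : ℝ) ≤ (c : ℝ) * ((0 : ℕ) : ℝ) ^ d := by positivity
    linarith
  · obtain ⟨σ, hσ⟩ := hc r hr n G hG
    have h1 : scol r G ≤ c * r ^ d + 1 := by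
      apply scol_le σ
      intro v
      have hsub : SReach G r σ v ⊆ insert v {u : Fin n | σ u < σ v ∧ ∃ p : G.Walk u v,
          p.length ≤ r ∧ ∀ w ∈ p.support, w ≠ u → w ≠ v → σ v < σ w} := by
        rintro u ⟨huv, q, _, hq, hw⟩
        rcases huv.lt_or_eq with h | h
        · right
          refine ⟨h, q.reverse, by simpa using hq, ?_⟩
          intro w hwq hwu hwv
          rw [SimpleGraph.Walk.support_reverse, List.mem_reverse] at hwq
          exact hw w hwq hwv hwu
        · left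
          exact σ.injective h
      refine (Set.ncard_le_ncard hsub (Set.toFinite _)).trans ?_
      refine (Set.ncard_insert_le _ _).trans ?_
      have := hσ v
      omega
    have h2 : (scol r G : ℝ) ≤ ((c * r ^ d + 1 : ℕ) : ℝ) := by exact_mod_cast h1
    push_cast at h2
    exact h2

end Pool.Agent.Results.MP_9d6589_co.ScolBramble
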